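import Mathlib

set_option autoImplicit false

/-!
# The balanced generalised Bernoulli-Laplace chain (MP_820675_pr): definitions

`d` urns with `n` balls each, `n` balls of each of the `d` colours. At rate one a ball is picked
uniformly from every urn, a permutation `σ` with law `μ` is drawn, and the ball from urn `i` is moved to
urn `σ i`.
-/

namespace Pool.Agent.T2H97.BL

open Finset Filter Topology Asymptotics

noncomputable section

/-- A table: `η i c` is the number of the balls of colour `c` in urn `i`. -/
abbrev Tab (d : ℕ) (C : Type) : Type := Fin d → C → ℕ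

section

variable {d : ℕ} {C : Type} [Fintype C] [DecidableEq C]

/-- The table after one step, if the ball picked from urn `i` has the colour `c i` and is moved to urn
`σ i`. -/
def move (σ : Equiv.Perm (Fin d)) (c : Fin d → C) (η : Tab d C) : Tab d C :=
  fun j k => η j k - (if c j = k then 1 else 0) + (if c (σ.symm j) = k then 1 else 0)

/-- The expectation of `f` after one step from `η`: the ball picked from urn `i` has the colour `c i`
with probability `η i (c i) / n`. -/
def K (μ : Equiv.Perm (Fin d) → ℝ) (n : ℕ) (f : Tab d C → ℝ) (η : Tab d C) : ℝ :=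
  ∑ σ, μ σ * ∑ c : Fin d → C, (∏ i, (η i (c i) : ℝ) / n) * f (move σ c η)

/-- The Poisson weights. -/
def poi (t : ℝ) (N : ℕ) : ℝ := Real.exp (-t) * t ^ N / (N.factorial : ℝ)

/-- The expectation of `f` at time `t` for the continuous time chain started from `η`: the number of the
steps until time `t` has the Poisson distribution with mean `t`. -/
def P (μ : Equiv.Perm (Fin d) → ℝ) (n : ℕ) (t : ℝ) (f : Tab d C → ℝ) (η : Tab d C) : ℝ :=
  ∑' N : ℕ, poi t N * (K μ n)^[N] f η

/-- The tables with `n` balls in every urn and `r c` balls of colour `c`. -/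
def tabs (d n : ℕ) (r : C → ℕ) : Finset (Tab d C) :=
  (Fintype.piFinset fun _ : Fin d => Fintype.piFinset fun _ : C => Finset.range (n + 1)).filter
    fun η => (∀ i, ∑ c, η i c = n) ∧ ∀ c, ∑ i, η i c = r c

/-- The weight of a table. -/
def wt (η : Tab d C) : ℝ := ∏ i, ∏ c, ((η i c).factorial : ℝ)⁻¹

end

variable {d : ℕ}

/-- The states of the balanced chain: `n` balls in every urn and `n` balls of every colour. -/
def states (d n : ℕ) : Finset (Tab d (Fin d)) := tabs d n fun _ => n

/-- The expectation of `f` under the stationary law `π_n`: all arrangements of the `d n` balls (made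
distinguishable) with `n` balls in every urn have the same probability, so that the probability of the
table `η` is proportional to `∏ 1 / (η i c)!`. -/
def stat (d n : ℕ) (f : Tab d (Fin d) → ℝ) : ℝ :=
  (∑ η ∈ states d n, wt η * f η) / ∑ η ∈ states d n, wt η

/-- The indicator function of a set of tables. -/
def ind {C : Type} (A : Set (Tab d C)) : Tab d C → ℝ := A.indicator fun _ => 1

/-- The worst-case total variation distance to the stationary law at time `t`. -/
def tv (μ : Equiv.Perm (Fin d) → ℝ) (n : ℕ) (t : ℝ) : ℝ :=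
  sSup {r : ℝ | ∃ x ∈ states d n, ∃ A : Set (Tab d (Fin d)), r = |P μ n t (ind A) x - stat d n (ind A)|}

/-- The mixing time. -/
def tmix (μ : Equiv.Perm (Fin d) → ℝ) (n : ℕ) (ε : ℝ) : ℝ := sInf {t : ℝ | 0 ≤ t ∧ tv μ n t ≤ ε}

/-- The chains have cutoff with a window of size `O(w n)`. -/
def CutoffWindow (μ : Equiv.Perm (Fin d) → ℝ) (w : ℕ → ℝ) : Prop :=
  (w =o[atTop] fun n => tmix μ n (1 / 4)) ∧
  Tendsto (fun α : ℝ => liminf (fun n => tv μ n (tmix μ n (1 / 4) - α * w n)) atTop) atTop (𝓝 1) ∧
  Tendsto (fun α : ℝ => limsup (fun n => tv μ n (tmix μ n (1 / 4) + α * w n)) atTop) atTop (𝓝 0)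

/-- The transition matrix of a single ball. -/
def U (μ : Equiv.Perm (Fin d) → ℝ) : Matrix (Fin d) (Fin d) ℝ :=
  fun i j => ∑ σ, if σ i = j then μ σ else 0

/-- `μ` is a probability distribution. -/
def IsProb (μ : Equiv.Perm (Fin d) → ℝ) : Prop := (∀ σ, 0 ≤ μ σ) ∧ ∑ σ, μ σ = 1

/-- The transition matrix `U` is irreducible. -/
def Irr (μ : Equiv.Perm (Fin d) → ℝ) : Prop := ∀ i j, ∃ k : ℕ, 0 < (U μ ^ k) i j

/-- `(AM ^ N) j i` is the probability that a given ball, in urn `i` at the beginning, is in urn `j` after
`N` steps. -/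
def AM (μ : Equiv.Perm (Fin d) → ℝ) (n : ℕ) : Matrix (Fin d) (Fin d) ℝ :=
  (1 - 1 / (n : ℝ)) • (1 : Matrix (Fin d) (Fin d) ℝ) + (1 / (n : ℝ)) • (U μ).transpose

/-- The squared distance of a table to the real table `z`. -/
def sq {C : Type} [Fintype C] (z : Fin d → C → ℝ) (η : Tab d C) : ℝ := ∑ j, ∑ c, ((η j c : ℝ) - z j c) ^ 2

/-- The squared distance to the mean `n / d`. -/
def q (d n : ℕ) (η : Tab d (Fin d)) : ℝ := sq (fun _ _ => (n : ℝ) / d) η

/-- Forget the first component of the colour. -/
def lump (H : Tab d (Fin d × Fin d)) : Tab d (Fin d) := fun j c => ∑ i, H j (i, c)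

/-- The colour of a ball is refined by its initial urn. -/
def start (x : Tab d (Fin d)) : Tab d (Fin d × Fin d) := fun j ic => if ic.1 = j then x j ic.2 else 0

/-- The numbers of the balls of the various initial urns. -/
def mrg (H : Tab d (Fin d × Fin d)) : Fin d → Fin d → ℕ := fun j i => ∑ c, H j (i, c)

end

end Pool.Agent.T2H97.BL
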