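import Pool.Agent.T2H97.BL.Stm

set_option autoImplicit false

/-!
# BL: the package FIN
-/

namespace Pool.Agent.T2H97.BL

open Finset Filter Topology Asymptotics

theorem FIN.tv_nonneg {d : ℕ} (μ : Equiv.Perm (Fin d) → ℝ) (n : ℕ) (t : ℝ) : 0 ≤ tv μ n t := by
  apply Real.sSup_nonneg
  rintro r ⟨x, hx, A, rfl⟩
  exact abs_nonneg _

theorem FIN.tmix_nonneg {d : ℕ} (μ : Equiv.Perm (Fin d) → ℝ) (n : ℕ) (ε : ℝ) : 0 ≤ tmix μ n ε := by
  apply Real.sInf_nonneg
  rintro r ⟨h, -⟩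
  exact h

theorem pFIN (hKEY : S_KEY) : S_FIN := by
  intro d hd μ hμ hirr
  rintro ⟨w, hw0, hwn, -, hlow, hup⟩
  obtain ⟨ε, hε, n0, hn0⟩ := hKEY d hd μ hμ hirr
  -- choose `α`
  have h1 : ∀ᶠ α : ℝ in atTop, 1 - ε / 2 < liminf (fun n => tv μ n (tmix μ n (1 / 4) - α * w n)) atTop :=
    hlow.eventually_const_lt (by linarith)
  have h2 : ∀ᶠ α : ℝ in atTop, limsup (fun n => tv μ n (tmix μ n (1 / 4) + α * w n)) atTop < 1 / 10 :=
    hup.eventually_lt_const (by norm_num)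
  obtain ⟨α, hα1, hα2, hα0⟩ := (h1.and (h2.and (eventually_ge_atTop (1 : ℝ)))).exists
  have hs0 : ∀ n, 0 ≤ tmix μ n (1 / 4) + α * w n := by
    intro n
    have := FIN.tmix_nonneg μ n (1 / 4)
    have := hw0 n
    positivity
  have e1 : ∀ᶠ n : ℕ in atTop, 1 - ε / 2 < tv μ n (tmix μ n (1 / 4) - α * w n) := by
    have hb : IsBoundedUnder (· ≥ ·) atTop fun n => tv μ n (tmix μ n (1 / 4) - α * w n) :=
      ⟨0, eventually_map.2 (Eventually.of_forall fun n => FIN.tv_nonneg μ n _)⟩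
    exact eventually_lt_of_lt_liminf hα1 hb
  have e2 : ∀ᶠ n : ℕ in atTop, tv μ n (tmix μ n (1 / 4) + α * w n) < 1 / 10 := by
    have hb : IsBoundedUnder (· ≤ ·) atTop fun n => tv μ n (tmix μ n (1 / 4) + α * w n) := by
      refine ⟨1, eventually_map.2 ?_⟩
      filter_upwards [eventually_ge_atTop n0] with n hn
      exact (hn0 n hn).2.2 _ (hs0 n)
    exact eventually_lt_of_limsup_lt hα2 hb
  have e3 := hwn.def (c := 1 / (32 * α)) (by positivity)
  obtain ⟨n, g1, g2, g3, g4⟩ := (e1.and (e2.and (e3.and (eventually_ge_atTop n0)))).exists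
  obtain ⟨k1, k2, -⟩ := hn0 n g4
  rw [Real.norm_eq_abs, Real.norm_eq_abs, abs_of_nonneg (hw0 n), abs_of_nonneg (Nat.cast_nonneg n)] at g3
  have h5 : α * w n ≤ n / 32 := by
    have : α * w n ≤ α * (1 / (32 * α) * n) := mul_le_mul_of_nonneg_left g3 (by linarith)
    refine this.trans (le_of_eq ?_)
    field_simp
  have h6 : (n : ℝ) / 8 < tmix μ n (1 / 4) + α * w n := by
    by_contra h
    rw [not_lt] at h
    have := k2 _ (hs0 n) h
    linarith
  have h7 : 0 ≤ α * w n := by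
    have := hw0 n
    positivity
  have h8 := k1 (tmix μ n (1 / 4) + α * w n) (tmix μ n (1 / 4) - α * w n) (by linarith) (by linarith)
    (by linarith) g2.le
  linarith

end Pool.Agent.T2H97.BL
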