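import Pool.Agent.T2H97.BL.Stm

set_option autoImplicit false

/-!
# BL: the package KEY
-/

namespace Pool.Agent.T2H97.BL

open Finset Filter Topology Asymptotics

namespace KEY

variable {d n : ℕ}

theorem stat_mono (hpos : 0 < ∑ η ∈ states d n, wt η) {f g : Tab d (Fin d) → ℝ}
    (h : ∀ η ∈ states d n, f η ≤ g η) : stat d n f ≤ stat d n g := by
  unfold stat
  apply div_le_div_of_nonneg_right _ hpos.le
  apply Finset.sum_le_sum
  intro η hη
  apply mul_le_mul_of_nonneg_left (h η hη)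
  unfold wt
  positivity

theorem stat_lin (f g : Tab d (Fin d) → ℝ) (a b : ℝ) :
    stat d n (fun η => a * f η + b * g η) = a * stat d n f + b * stat d n g := by
  unfold stat
  rw [← mul_div_assoc, ← mul_div_assoc, ← add_div, Finset.mul_sum, Finset.mul_sum,
    ← Finset.sum_add_distrib]
  congr 1
  apply Finset.sum_congr rfl
  intro η _
  ring

theorem stat_const (hpos : 0 < ∑ η ∈ states d n, wt η) (a : ℝ) :
    stat d n (fun _ : Tab d (Fin d) => a) = a := by
  unfold stat
  rw [← Finset.sum_mul]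
  field_simp

theorem ind_nonneg {C : Type} (A : Set (Tab d C)) (η : Tab d C) : 0 ≤ ind A η := by
  unfold ind
  exact Set.indicator_nonneg (fun _ _ => zero_le_one) _

theorem ind_le_one {C : Type} (A : Set (Tab d C)) (η : Tab d C) : ind A η ≤ 1 := by
  unfold ind
  exact Set.indicator_le_self' (fun _ _ => zero_le_one) _

theorem ind_mem {C : Type} {A : Set (Tab d C)} {η : Tab d C} (h : η ∈ A) : ind A η = 1 := by
  unfold ind
  exact Set.indicator_of_mem h _

theorem ind_notMem {C : Type} {A : Set (Tab d C)} {η : Tab d C} (h : η ∉ A) : ind A η = 0 := by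
  unfold ind
  exact Set.indicator_of_notMem h _

theorem ind_compl {C : Type} (A : Set (Tab d C)) (η : Tab d C) : ind Aᶜ η = 1 - ind A η := by
  by_cases h : η ∈ A
  · rw [ind_mem h, ind_notMem (by simpa using h)]; norm_num
  · rw [ind_notMem h, ind_mem (by simpa using h)]; norm_num

theorem stat_ind_nonneg (hpos : 0 < ∑ η ∈ states d n, wt η) (A : Set (Tab d (Fin d))) :
    0 ≤ stat d n (ind A) := by
  rw [← stat_const (d := d) (n := n) hpos 0]
  exact stat_mono hpos fun η _ => ind_nonneg A η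

theorem stat_ind_le_one (hpos : 0 < ∑ η ∈ states d n, wt η) (A : Set (Tab d (Fin d))) :
    stat d n (ind A) ≤ 1 := by
  rw [← stat_const (d := d) (n := n) hpos 1]
  exact stat_mono hpos fun η _ => ind_le_one A η

theorem stat_ind_compl (hpos : 0 < ∑ η ∈ states d n, wt η) (A : Set (Tab d (Fin d))) :
    stat d n (ind Aᶜ) = 1 - stat d n (ind A) := by
  have h : (ind Aᶜ : Tab d (Fin d) → ℝ) = fun η => 1 * (fun _ => (1 : ℝ)) η + (-1) * ind A η := by
    funext η; rw [ind_compl]; ring
  rw [h, stat_lin, stat_const hpos]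
  ring

/-- Package of the facts used about `P`. -/
structure Facts (d n : ℕ) (μ : Equiv.Perm (Fin d) → ℝ) : Prop where
  hpos : 0 < ∑ η ∈ states d n, wt η
  mono : ∀ t : ℝ, 0 ≤ t → ∀ x ∈ states d n, ∀ f g : Tab d (Fin d) → ℝ,
    (∀ η ∈ states d n, f η ≤ g η) → P μ n t f x ≤ P μ n t g x
  const : ∀ t : ℝ, 0 ≤ t → ∀ x ∈ states d n, ∀ a : ℝ, P μ n t (fun _ => a) x = a
  lin : ∀ t : ℝ, 0 ≤ t → ∀ x ∈ states d n, ∀ (f g : Tab d (Fin d) → ℝ) (a b : ℝ),
      P μ n t (fun η => a * f η + b * g η) x = a * P μ n t f x + b * P μ n t g x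
  semi : ∀ t : ℝ, 0 ≤ t → ∀ x ∈ states d n, ∀ (f : Tab d (Fin d) → ℝ) (s : ℝ), 0 ≤ s →
      P μ n (t + s) f x = P μ n t (fun y => P μ n s f y) x
  diag : ∃ x ∈ states d n, q d n x = (n : ℝ) ^ 2 * (d - 1)
  statP : ∀ (f : Tab d (Fin d) → ℝ) (t : ℝ), 0 ≤ t → stat d n (P μ n t f) = stat d n f
  far : ∀ t : ℝ, 0 ≤ t → t ≤ (n : ℝ) / 8 → ∀ x ∈ states d n, 720 * d * n < q d n x →
    P μ n t (ind {η | q d n η ≤ 20 * d * n}) x ≤ 1 / 20
  b1 : 9 / 10 ≤ stat d n (ind {η : Tab d (Fin d) | q d n η ≤ 20 * d * n})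

section

variable {μ : Equiv.Perm (Fin d) → ℝ} (F : Facts d n μ)

include F

theorem P_nonneg {t : ℝ} (ht : 0 ≤ t) {x : Tab d (Fin d)} (hx : x ∈ states d n)
    (f : Tab d (Fin d) → ℝ) (hf : ∀ η ∈ states d n, 0 ≤ f η) : 0 ≤ P μ n t f x := by
  rw [← F.const t ht x hx 0]
  exact F.mono t ht x hx _ _ hf

theorem P_ind_le_one {t : ℝ} (ht : 0 ≤ t) {x : Tab d (Fin d)} (hx : x ∈ states d n)
    (A : Set (Tab d (Fin d))) : P μ n t (ind A) x ≤ 1 := by
  rw [← F.const t ht x hx 1]
  exact F.mono t ht x hx _ _ fun η _ => ind_le_one A η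

theorem P_ind_compl {t : ℝ} (ht : 0 ≤ t) {x : Tab d (Fin d)} (hx : x ∈ states d n)
    (A : Set (Tab d (Fin d))) : P μ n t (ind Aᶜ) x = 1 - P μ n t (ind A) x := by
  have h : (ind Aᶜ : Tab d (Fin d) → ℝ) = fun η => 1 * (fun _ => (1 : ℝ)) η + (-1) * ind A η := by
    funext η; rw [ind_compl]; ring
  rw [h, F.lin t ht x hx, F.const t ht x hx]
  ring

theorem bdd {t : ℝ} (ht : 0 ≤ t) : BddAbove {r : ℝ | ∃ x ∈ states d n, ∃ A : Set (Tab d (Fin d)),
    r = |P μ n t (ind A) x - stat d n (ind A)|} := by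
  refine ⟨1, ?_⟩
  rintro r ⟨x, hx, A, rfl⟩
  have h1 := P_nonneg F ht hx (ind A) fun η _ => ind_nonneg A η
  have h2 := P_ind_le_one F ht hx A
  have h3 := stat_ind_nonneg F.hpos A
  have h4 := stat_ind_le_one F.hpos A
  rw [abs_le]
  constructor <;> linarith

theorem le_tv {t : ℝ} (ht : 0 ≤ t) {x : Tab d (Fin d)} (hx : x ∈ states d n)
    (A : Set (Tab d (Fin d))) : |P μ n t (ind A) x - stat d n (ind A)| ≤ tv μ n t :=
  le_csSup (bdd F ht) ⟨x, hx, A, rfl⟩

theorem tv_le {t c : ℝ} (h : ∀ x ∈ states d n, ∀ A : Set (Tab d (Fin d)),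
    |P μ n t (ind A) x - stat d n (ind A)| ≤ c) : tv μ n t ≤ c := by
  obtain ⟨x, hx, -⟩ := F.diag
  have hne : {r : ℝ | ∃ x ∈ states d n, ∃ A : Set (Tab d (Fin d)),
    r = |P μ n t (ind A) x - stat d n (ind A)|}.Nonempty := ⟨_, x, hx, ∅, rfl⟩
  apply csSup_le hne
  rintro r ⟨x, hx, A, rfl⟩
  exact h x hx A

theorem tv_le_one {t : ℝ} (ht : 0 ≤ t) : tv μ n t ≤ 1 := by
  apply tv_le F
  intro x hx A
  have h1 := P_nonneg F ht hx (ind A) fun η _ => ind_nonneg A η
  have h2 := P_ind_le_one F ht hx A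
  have h3 := stat_ind_nonneg F.hpos A
  have h4 := stat_ind_le_one F.hpos A
  rw [abs_le]
  constructor <;> linarith

/-- The lower bound for short times. -/
theorem low (hd : 2 ≤ d) (hn : 1440 < n) {s : ℝ} (hs : 0 ≤ s) (hs' : s ≤ (n : ℝ) / 8) :
    1 / 10 < tv μ n s := by
  obtain ⟨x, hx, hq⟩ := F.diag
  have hd' : (2 : ℝ) ≤ d := by exact_mod_cast hd
  have hn' : (1440 : ℝ) < n := by exact_mod_cast hn
  have h1 : 720 * (d : ℝ) * n < q d n x := by
    rw [hq]
    have : 720 * (d : ℝ) < n * (d - 1) := by nlinarith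
    have h3 : (0 : ℝ) < n := by linarith
    nlinarith
  have h2 := F.far s hs hs' x hx h1
  have h3 := F.b1
  have h4 := le_tv F hs hx {η : Tab d (Fin d) | q d n η ≤ 20 * d * n}
  have h5 := neg_abs_le (P μ n s (ind {η : Tab d (Fin d) | q d n η ≤ 20 * d * n}) x -
    stat d n (ind {η : Tab d (Fin d) | q d n η ≤ 20 * d * n}))
  linarith

/-- The main step. -/
theorem main (ε : ℝ)
    (hov : ∀ x ∈ states d n, ∀ y ∈ states d n, q d n x ≤ 720 * d * n → q d n y ≤ 720 * d * n →
      ∀ A : Set (Tab d (Fin d)),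
        ε / 2 ≤ P μ n ((n : ℝ) / 16) (ind Aᶜ) x + P μ n ((n : ℝ) / 16) (ind A) y)
    {s t : ℝ} (ht : (n : ℝ) / 16 ≤ t) (hts : t ≤ s) (hst : s ≤ t + n / 16) (htv : tv μ n s ≤ 1 / 10) :
    tv μ n t ≤ 1 - ε / 4 := by
  have hn0 : (0 : ℝ) ≤ n := Nat.cast_nonneg n
  have hd0 : (0 : ℝ) ≤ d := Nat.cast_nonneg d
  set B1 : Set (Tab d (Fin d)) := {η : Tab d (Fin d) | q d n η ≤ 20 * d * n} with hB1
  set B2 : Set (Tab d (Fin d)) := {η : Tab d (Fin d) | q d n η ≤ 720 * d * n} with hB2
  have hb1 : 9 / 10 ≤ stat d n (ind B1) := F.b1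
  have hsub : B1 ⊆ B2 := by
    intro η hη
    have h : q d n η ≤ 20 * d * n := hη
    show q d n η ≤ 720 * d * n
    have h2 : (0 : ℝ) ≤ (d : ℝ) * n := by positivity
    nlinarith
  have hb2 : 9 / 10 ≤ stat d n (ind B2) := by
    refine hb1.trans (stat_mono F.hpos fun η _ => ?_)
    by_cases h : η ∈ B1
    · rw [ind_mem h, ind_mem (hsub h)]
    · rw [ind_notMem h]; exact ind_nonneg _ _
  set t' : ℝ := t - n / 16 with ht'
  have ht'0 : 0 ≤ t' := by rw [ht']; linarith
  have hu0 : 0 ≤ s - t' := by rw [ht']; linarith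
  have hu1 : s - t' ≤ (n : ℝ) / 8 := by rw [ht']; linarith
  have hv0 : (0 : ℝ) ≤ (n : ℝ) / 16 := by positivity
  -- the state at time `t'` is in `B2` with probability at least one half
  have half : ∀ x ∈ states d n, 1 / 2 ≤ P μ n t' (ind B2) x := by
    intro x hx
    have h1 : 8 / 10 ≤ P μ n s (ind B1) x := by
      have h2 := le_tv F (t := s) (by linarith) hx B1
      have h3 := neg_abs_le (P μ n s (ind B1) x - stat d n (ind B1))
      linarith
    have h2 : P μ n s (ind B1) x = P μ n t' (fun y => P μ n (s - t') (ind B1) y) x := by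
      have := F.semi t' ht'0 x hx (ind B1) (s - t') hu0
      rw [← this]
      congr 1
      ring
    have h3 : P μ n t' (fun y => P μ n (s - t') (ind B1) y) x ≤
        P μ n t' (fun y => 1 * ind B2 y + (1 / 20) * (fun _ => (1 : ℝ)) y) x := by
      apply F.mono t' ht'0 x hx
      intro y hy
      by_cases h : y ∈ B2
      · rw [ind_mem h]
        have := P_ind_le_one F hu0 hy B1
        simp only
        linarith
      · rw [ind_notMem h]
        have h4 : 720 * (d : ℝ) * n < q d n y := by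
          by_contra h5
          exact h (not_lt.1 h5)
        have := F.far (s - t') hu0 hu1 y hy h4
        simp only
        linarith
    rw [F.lin t' ht'0 x hx, F.const t' ht'0 x hx] at h3
    linarith
  -- the sum of the two probabilities
  have key : ∀ x ∈ states d n, ∀ A : Set (Tab d (Fin d)),
      ε / 4 ≤ P μ n t (ind Aᶜ) x + stat d n (ind A) := by
    intro x hx A
    classical
    set S : Finset (Tab d (Fin d)) := (states d n).filter fun η => η ∈ B2 with hS
    have hSne : S.Nonempty := by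
      by_contra hne
      rw [Finset.not_nonempty_iff_eq_empty] at hne
      have h0 : stat d n (ind B2) ≤ stat d n (fun _ => (0 : ℝ)) := by
        apply stat_mono F.hpos
        intro η hη
        have : η ∉ B2 := by
          intro h
          have : η ∈ S := by rw [hS, Finset.mem_filter]; exact ⟨hη, h⟩
          rw [hne] at this
          simp at this
        rw [ind_notMem this]
      rw [stat_const F.hpos] at h0
      linarith
    obtain ⟨xm, hxm, hxmin⟩ := S.exists_min_image (fun y => P μ n ((n : ℝ) / 16) (ind Aᶜ) y) hSne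
    obtain ⟨ym, hym, hymin⟩ := S.exists_min_image (fun y => P μ n ((n : ℝ) / 16) (ind A) y) hSne
    rw [hS, Finset.mem_filter] at hxm hym
    have hab := hov xm hxm.1 ym hym.1 hxm.2 hym.2 A
    set a := P μ n ((n : ℝ) / 16) (ind Aᶜ) xm with ha
    set b := P μ n ((n : ℝ) / 16) (ind A) ym with hb
    have ha0 : 0 ≤ a := P_nonneg F hv0 hxm.1 _ fun η _ => ind_nonneg _ η
    have hb0 : 0 ≤ b := P_nonneg F hv0 hym.1 _ fun η _ => ind_nonneg _ η
    have h1 : P μ n t (ind Aᶜ) x = P μ n t' (fun y => P μ n ((n : ℝ) / 16) (ind Aᶜ) y) x := by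
      rw [← F.semi t' ht'0 x hx (ind Aᶜ) _ hv0]
      congr 1
      rw [ht']; ring
    have h2 : P μ n t' (fun y => a * ind B2 y + 0 * (fun _ => (0 : ℝ)) y) x ≤
        P μ n t' (fun y => P μ n ((n : ℝ) / 16) (ind Aᶜ) y) x := by
      apply F.mono t' ht'0 x hx
      intro y hy
      by_cases h : y ∈ B2
      · rw [ind_mem h]
        have := hxmin y (by rw [hS, Finset.mem_filter]; exact ⟨hy, h⟩)
        simp only at this ⊢
        linarith
      · rw [ind_notMem h]
        have := P_nonneg F hv0 hy (ind Aᶜ) fun η _ => ind_nonneg _ η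
        simp only
        linarith
    rw [F.lin t' ht'0 x hx] at h2
    have h3 : stat d n (fun y => b * ind B2 y + 0 * (fun _ => (0 : ℝ)) y) ≤
        stat d n (fun y => P μ n ((n : ℝ) / 16) (ind A) y) := by
      apply stat_mono F.hpos
      intro y hy
      by_cases h : y ∈ B2
      · rw [ind_mem h]
        have := hymin y (by rw [hS, Finset.mem_filter]; exact ⟨hy, h⟩)
        simp only at this ⊢
        linarith
      · rw [ind_notMem h]
        have := P_nonneg F hv0 hy (ind A) fun η _ => ind_nonneg _ η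
        simp only
        linarith
    rw [stat_lin] at h3
    have h4 : stat d n (fun y => P μ n ((n : ℝ) / 16) (ind A) y) = stat d n (ind A) :=
      F.statP (ind A) _ hv0
    have h5 := half x hx
    have h6 : a * (1 / 2) ≤ a * P μ n t' (ind B2) x := mul_le_mul_of_nonneg_left h5 ha0
    have h7 : b * (1 / 2) ≤ b * stat d n (ind B2) := mul_le_mul_of_nonneg_left (by linarith) hb0
    have h8 : a * P μ n t' (ind B2) x ≤ P μ n t (ind Aᶜ) x := by rw [h1]; linarith
    have h9 : b * stat d n (ind B2) ≤ stat d n (ind A) := by rw [← h4]; linarith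
    linarith
  have ht0 : 0 ≤ t := by linarith
  apply tv_le F
  intro x hx A
  have h1 := key x hx A
  have h2 := key x hx Aᶜ
  rw [compl_compl] at h2
  rw [P_ind_compl F ht0 hx] at h1
  rw [stat_ind_compl F.hpos] at h2
  rw [abs_le]
  constructor <;> linarith

end

/-- The value of `q` at the diagonal state. -/
theorem q_diag (hd : 2 ≤ d) : q d n (fun j c => if j = c then n else 0) = (n : ℝ) ^ 2 * (d - 1) := by
  have hd0 : (d : ℝ) ≠ 0 := by
    have : (2 : ℝ) ≤ d := by exact_mod_cast hd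
    linarith
  unfold q sq
  have h1 : ∀ j : Fin d, ∑ c : Fin d, (((if j = c then n else 0 : ℕ) : ℝ) - (n : ℝ) / d) ^ 2 =
      (n : ℝ) ^ 2 * (d - 1) / d := by
    intro j
    have h2 : ∀ c : Fin d, (((if j = c then n else 0 : ℕ) : ℝ) - (n : ℝ) / d) ^ 2 =
        (if j = c then (n : ℝ) ^ 2 - 2 * n * (n / d) else 0) + ((n : ℝ) / d) ^ 2 := by
      intro c
      by_cases h : j = c
      · simp only [h, if_true]; ring
      · simp only [h, if_false, Nat.cast_zero]; ring
    rw [Finset.sum_congr rfl fun c _ => h2 c, Finset.sum_add_distrib, Finset.sum_ite_eq]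
    simp only [Finset.mem_univ, if_true, Finset.sum_const, Finset.card_univ, Fintype.card_fin,
      nsmul_eq_mul]
    field_simp
    ring
  rw [Finset.sum_congr rfl fun j _ => h1 j]
  simp only [Finset.sum_const, Finset.card_univ, Fintype.card_fin, nsmul_eq_mul]
  field_simp

/-- Markov for the stationary law. -/
theorem stat_b1 (hd : 2 ≤ d) (hn : 2 ≤ n) (hpos : 0 < ∑ η ∈ states d n, wt η)
    (hPI : stat d n (q d n) ≤ 2 * d * n) :
    9 / 10 ≤ stat d n (ind {η : Tab d (Fin d) | q d n η ≤ 20 * d * n}) := by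
  have hd' : (2 : ℝ) ≤ d := by exact_mod_cast hd
  have hn' : (2 : ℝ) ≤ n := by exact_mod_cast hn
  have hdn : (0 : ℝ) < 20 * d * n := by positivity
  set B1 : Set (Tab d (Fin d)) := {η : Tab d (Fin d) | q d n η ≤ 20 * d * n} with hB1
  have h1 : stat d n (fun η => (20 * d * n) * ind B1ᶜ η + 0 * (fun _ => (0 : ℝ)) η) ≤
      stat d n (q d n) := by
    apply stat_mono hpos
    intro η _
    by_cases h : η ∈ B1
    · rw [ind_notMem (by simpa using h)]
      simp only [mul_zero, add_zero]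
      unfold q sq
      positivity
    · rw [ind_mem (by simpa using h)]
      have : ¬ q d n η ≤ 20 * d * n := h
      simp only
      linarith
  rw [stat_lin, stat_ind_compl hpos] at h1
  have h2 : (20 * d * n : ℝ) * (1 - stat d n (ind B1)) ≤ (20 * d * n) * (1 / 10) := by linarith
  have h3 := le_of_mul_le_mul_left h2 hdn
  linarith

theorem summ {C : Type} [Fintype C] [DecidableEq C] (hPT : S_PT) {μ : Equiv.Perm (Fin d) → ℝ}
    {t : ℝ} (ht : 0 ≤ t) (f : Tab d C → ℝ) (x : Tab d C) (hB : ∃ B : ℝ, ∀ N : ℕ, |(K μ n)^[N] f x| ≤ B) :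
    Summable fun N => poi t N * (K μ n)^[N] f x := by
  obtain ⟨B, hB⟩ := hB
  obtain ⟨h0, h1, -, -⟩ := hPT t ht
  apply Summable.of_norm_bounded (g := fun N => poi t N * B) (h1.summable.mul_right B)
  intro N
  rw [Real.norm_eq_abs, abs_mul, abs_of_nonneg (h0 N)]
  exact mul_le_mul_of_nonneg_left (hB N) (h0 N)

end KEY

open KEY in
theorem pKEY (hPB : S_PB) (hPT : S_PT) (hST : S_ST) (hOV : S_OV) (hPI : S_PI) (hOUT : S_OUT)
    (hKB : S_KB) : S_KEY := by
  intro d hd μ hμ hirr
  have hd' : (2 : ℝ) ≤ d := by exact_mod_cast hd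
  obtain ⟨ε, hε, n0, hn0⟩ := hOV d hd μ hμ hirr (1 / 32) (720 * d) (by norm_num) (by positivity)
  refine ⟨ε / 4, by positivity, max n0 1441, ?_⟩
  intro n hn
  have hnn0 : n0 ≤ n := le_trans (le_max_left _ _) hn
  have hn1 : 1440 < n := lt_of_lt_of_le (by norm_num) (le_trans (le_max_right n0 1441) hn)
  have hnR : (1440 : ℝ) < n := by exact_mod_cast hn1
  have hn0' : 0 < n := by omega
  have hn2 : 2 ≤ n := by omega
  obtain ⟨-, hdiag, hpos, hstat⟩ := hST d μ hμ n hn0'
  have hb1 := stat_b1 hd hn2 hpos (hPI d hd n hn2)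
  have hKBr := hKB d (Fin d) μ hμ n hn0' (fun _ => n)
  have hlow0 : ∀ (N : ℕ) (A : Set (Tab d (Fin d))), ∀ x ∈ states d n, 0 ≤ (K μ n)^[N] (ind A) x := by
    intro N A x hx
    have := hKBr.1 N (fun _ => 0) (ind A) (fun η _ => ind_nonneg A η) x hx
    rwa [hKBr.2.1 N 0 x hx] at this
  have hup : ∀ (N : ℕ) (A : Set (Tab d (Fin d))), ∀ x ∈ states d n, (K μ n)^[N] (ind A) x ≤ 1 := by
    intro N A x hx
    have := hKBr.1 N (ind A) (fun _ => 1) (fun η _ => ind_le_one A η) x hx
    rwa [hKBr.2.1 N 1 x hx] at this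
  have hsum : ∀ (t : ℝ), 0 ≤ t → ∀ (f : Tab d (Fin d) → ℝ), ∀ x ∈ states d n,
      Summable fun N => poi t N * (K μ n)^[N] f x := by
    intro t ht f x hx
    exact summ hPT ht f x (hKBr.2.2.2 f x hx)
  have F : Facts d n μ := by
    refine ⟨hpos, ?_, ?_, ?_, ?_, ⟨_, hdiag, q_diag hd⟩, hstat, ?_, hb1⟩
    · intro t ht x hx
      exact (hPB d (Fin d) μ hμ n hn0' (fun _ => n) t ht x hx).1
    · intro t ht x hx
      exact (hPB d (Fin d) μ hμ n hn0' (fun _ => n) t ht x hx).2.1
    · intro t ht x hx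
      exact (hPB d (Fin d) μ hμ n hn0' (fun _ => n) t ht x hx).2.2.1
    · intro t ht x hx
      exact (hPB d (Fin d) μ hμ n hn0' (fun _ => n) t ht x hx).2.2.2.1
    · intro t ht ht8 x hx hq
      have h1 := (hPB d (Fin d) μ hμ n hn0' (fun _ => n) t ht x hx).2.2.2.2
        (ind {η | q d n η ≤ 20 * d * n}) (1 / 40) {N : ℕ | 4 * N ≤ n}
        (fun N hN => hOUT d hd μ hμ n hn2 N hN x hx hq) (fun N => hup N _ x hx) (by norm_num)
      refine h1.trans ?_
      obtain ⟨p0, p1, -, pch⟩ := hPT t ht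
      have h2 := pch ((n : ℝ) / 8) (by positivity)
      have h3 : ∑' N : ℕ, ({N : ℕ | 4 * N ≤ n}ᶜ).indicator (poi t) N ≤
          ∑' N : ℕ, (if (n : ℝ) / 8 ≤ |(N : ℝ) - t| then poi t N else 0) := by
        apply Summable.tsum_le_tsum
        · intro N
          by_cases h : 4 * N ≤ n
          · rw [Set.indicator_of_notMem (by simpa using h)]
            split_ifs
            · exact p0 N
            · exact le_refl _
          · rw [Set.indicator_of_mem (by simpa using h)]
            have h5 : (n : ℝ) < 4 * N := by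
              have : n < 4 * N := by omega
              exact_mod_cast this
            rw [if_pos]
            rw [le_abs]
            left
            linarith
        · exact p1.summable.indicator _
        · apply Summable.of_nonneg_of_le _ _ p1.summable
          · intro N
            split_ifs
            · exact p0 N
            · exact le_refl _
          · intro N
            split_ifs
            · exact le_refl _
            · exact p0 N
      have h4 : t / ((n : ℝ) / 8) ^ 2 ≤ 1 / 40 := by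
        rw [div_le_iff₀ (by positivity)]
        nlinarith
      linarith
  refine ⟨?_, fun s hs hs' => low F hd hn1 hs hs', fun s hs => tv_le_one F hs⟩
  intro s t ht hts hst htv
  refine main F ε ?_ ht hts hst htv
  intro x hx y hy hqx hqy A
  have hv0 : (0 : ℝ) ≤ (n : ℝ) / 16 := by positivity
  obtain ⟨p0, p1, -, pch⟩ := hPT ((n : ℝ) / 16) hv0
  have h2 := pch ((n : ℝ) / 32) (by positivity)
  have hs1 := hsum _ hv0 (ind Aᶜ) x hx
  have hs2 := hsum _ hv0 (ind A) y hy
  unfold P
  rw [← hs1.tsum_add hs2]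
  have hsI : Summable fun N : ℕ => (if (n : ℝ) / 32 ≤ |(N : ℝ) - n / 16| then poi ((n : ℝ) / 16) N else 0) := by
    apply Summable.of_nonneg_of_le _ _ p1.summable
    · intro N
      split_ifs
      · exact p0 N
      · exact le_refl _
    · intro N
      split_ifs
      · exact le_refl _
      · exact p0 N
  have h3 : ∑' N : ℕ, (ε * poi ((n : ℝ) / 16) N -
      ε * (if (n : ℝ) / 32 ≤ |(N : ℝ) - n / 16| then poi ((n : ℝ) / 16) N else 0)) ≤
      ∑' N : ℕ, (poi ((n : ℝ) / 16) N * (K μ n)^[N] (ind Aᶜ) x +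
        poi ((n : ℝ) / 16) N * (K μ n)^[N] (ind A) y) := by
    apply Summable.tsum_le_tsum
    · intro N
      by_cases h : (n : ℝ) / 32 ≤ |(N : ℝ) - n / 16|
      · rw [if_pos h, sub_self]
        have := p0 N
        have h5 := hlow0 N Aᶜ x hx
        have h6 := hlow0 N A y hy
        positivity
      · rw [if_neg h, mul_zero, sub_zero, ← mul_add, mul_comm]
        apply mul_le_mul_of_nonneg_left _ (p0 N)
        rw [not_le, abs_lt] at h
        apply hn0 n hnn0 N (by linarith [h.1]) (by linarith [h.2]) x hx y hy hqx hqy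
    · exact (p1.summable.mul_left ε).sub (hsI.mul_left ε)
    · exact hs1.add hs2
  rw [Summable.tsum_sub (p1.summable.mul_left ε) (hsI.mul_left ε), tsum_mul_left, tsum_mul_left,
    p1.tsum_eq] at h3
  have h4 : (n : ℝ) / 16 / ((n : ℝ) / 32) ^ 2 ≤ 1 / 2 := by
    rw [div_le_iff₀ (by positivity)]
    nlinarith
  have h5 : ε * ∑' N : ℕ, (if (n : ℝ) / 32 ≤ |(N : ℝ) - n / 16| then poi ((n : ℝ) / 16) N else 0) ≤
      ε * (1 / 2) := mul_le_mul_of_nonneg_left (h2.trans h4) hε.le
  linarith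

end Pool.Agent.T2H97.BL
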