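import Pool.Agent.T2H97.BL.Defs

set_option autoImplicit false

/-!
# BL (MP_820675_pr): the window of the balanced chains is of order exactly `n`. Statements.

Paper proof. Write `A = AM μ n`. After `N` steps from `x` the table is within `O(√N)` of `A^N x` (LSN:
variance at most `2 d N`), for every colouring. Refine the colour of a ball by its initial urn. The law of
the refined table `H` is `W_N(M) ∏ x_i(c)! / ∏ H_j(i,c)!`, where `M = mrg H` and `W_N` does not depend on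
`x` (FB). If `x`, `y` are within `O(√n)` of `n / d` and `N` is of order `n`, then changing only
`H_{j0}(i, c)` by `y_i(c) - x_i(c)` gives a table of the chain started from `y`, with the same `M`, with
the same unrefined table, and with a comparable probability. So the laws after `N` steps are not nearly
singular to each other (OV). A state with `q > 720 d n` cannot come close to the centre within `n / 4`
steps (OUT). Hence: if the distance at time `s` is at most `1/10`, then at time `t - n/16 ≥ s - n/8` the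
chain is in the ball `q ≤ 720 d n` with probability at least `1/2`, and the distance at time `t` is at most
`1 - ε` (KEY). A window `o(n)` is impossible (FIN).
-/

namespace Pool.Agent.T2H97.BL

open Finset Filter Topology Asymptotics

/-- **KB** (kernel basics, 45 min). `K` is linear by definition. Positivity and locality: if the weight
`∏ i, η i (c i)` is not zero then `move σ c η ∈ tabs d n r` for `η ∈ tabs d n r` (rows: one ball leaves and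
one ball comes to every urn; columns: `∑ j, [c j = k] = ∑ j, [c (σ.symm j) = k]`). The sum of the weights
is `∑ σ, μ σ * ∏ i (∑ c, η i c / n) = 1` (`Finset.prod_univ_sum`). Induction on `N`. -/
def S_KB : Prop := ∀ (d : ℕ) (C : Type) [Fintype C] [DecidableEq C] (μ : Equiv.Perm (Fin d) → ℝ),
  IsProb μ → ∀ n : ℕ, 0 < n → ∀ r : C → ℕ,
    (∀ (N : ℕ) (f g : Tab d C → ℝ), (∀ η ∈ tabs d n r, f η ≤ g η) →
      ∀ x ∈ tabs d n r, (K μ n)^[N] f x ≤ (K μ n)^[N] g x) ∧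
    (∀ (N : ℕ) (a : ℝ), ∀ x ∈ tabs d n r, (K μ n)^[N] (fun _ => a) x = a) ∧
    (∀ (N : ℕ) (f g : Tab d C → ℝ) (a b : ℝ) (x : Tab d C),
      (K μ n)^[N] (fun η => a * f η + b * g η) x = a * (K μ n)^[N] f x + b * (K μ n)^[N] g x) ∧
    (∀ (f : Tab d C → ℝ), ∀ x ∈ tabs d n r, ∃ B : ℝ, ∀ N : ℕ, |(K μ n)^[N] f x| ≤ B)

/-- **PT** (Poisson weights, 40 min). `∑ (N - t)^2 poi t N = t`, Chebyshev. The factorial moments:
`N t^N / N! = t t^(N-1) / (N-1)!` (compare `HK4.poisson` in Pool/Agent/T2H99/AW/HK4.lean and `pw_add` in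
HK1.lean there). -/
def S_PT : Prop := ∀ t : ℝ, 0 ≤ t →
  (∀ N, 0 ≤ poi t N) ∧ HasSum (poi t) 1 ∧
  (∀ s : ℝ, ∀ k : ℕ, ∑ kl ∈ antidiagonal k, poi s kl.1 * poi t kl.2 = poi (s + t) k) ∧
  (∀ a : ℝ, 0 < a → ∑' N : ℕ, (if a ≤ |(N : ℝ) - t| then poi t N else 0) ≤ t / a ^ 2)

/-- **PB** (the semigroup, 60 min), from KB and PT. The semigroup property: absolutely convergent double
series, `K^[N] (K^[M] f) = K^[N+M] f`, `poi_add`. -/
def S_PB : Prop := ∀ (d : ℕ) (C : Type) [Fintype C] [DecidableEq C] (μ : Equiv.Perm (Fin d) → ℝ),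
  IsProb μ → ∀ n : ℕ, 0 < n → ∀ (r : C → ℕ) (t : ℝ), 0 ≤ t → ∀ x ∈ tabs d n r,
    (∀ f g : Tab d C → ℝ, (∀ η ∈ tabs d n r, f η ≤ g η) → P μ n t f x ≤ P μ n t g x) ∧
    (∀ a : ℝ, P μ n t (fun _ => a) x = a) ∧
    (∀ (f g : Tab d C → ℝ) (a b : ℝ),
      P μ n t (fun η => a * f η + b * g η) x = a * P μ n t f x + b * P μ n t g x) ∧
    (∀ (f : Tab d C → ℝ) (s : ℝ), 0 ≤ s → P μ n (t + s) f x = P μ n t (fun y => P μ n s f y) x) ∧
    -- Poisson mixtures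
    (∀ (f : Tab d C → ℝ) (B : ℝ) (E : Set ℕ), (∀ N ∈ E, (K μ n)^[N] f x ≤ B) →
      (∀ N, (K μ n)^[N] f x ≤ 1) → 0 ≤ B →
      P μ n t f x ≤ B + ∑' N : ℕ, Eᶜ.indicator (poi t) N)

/-- **REV** (reversal identity, 60 min). For `η` with `∏ η i (c i) ≠ 0` let `η⁻ = η - ` the picked balls;
then `wt η * ∏ η i (c i) = wt η⁻ = wt η' * ∏ η' (σ i) (c i)` for `η' = move σ c η`, and
`(η, c) ↦ (η', c)` is a bijection between the pairs with nonzero products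
(`Finset.sum_nbij'` or `Finset.sum_bij_ne_zero`; inverse `η j k = η' j k - [c (σ.symm j) = k] + [c j = k]`). -/
def S_REV : Prop := ∀ (d : ℕ) (C : Type) [Fintype C] [DecidableEq C] (n : ℕ) (r : C → ℕ)
  (σ : Equiv.Perm (Fin d)) (F : Tab d C → (Fin d → C) → ℝ),
    ∑ η ∈ tabs d n r, wt η * ∑ c : Fin d → C, (∏ i, (η i (c i) : ℝ)) * F (move σ c η) c =
      ∑ η ∈ tabs d n r, wt η * ∑ c : Fin d → C, (∏ i, (η (σ i) (c i) : ℝ)) * F η c

/-- **ST** (stationarity, 30 min), from REV: `∑ c, ∏ i, η (σ i) (c i) = ∏ i, ∑ c, η (σ i) c = n ^ d`.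
Also: the weights are positive and `fun j c => if j = c then n else 0` is a state. The last part: from the
first one by the series (`tsum` of the constants `poi t N * stat d n f`, see KB for the bounds). -/
def S_ST : Prop := ∀ (d : ℕ) (μ : Equiv.Perm (Fin d) → ℝ), IsProb μ → ∀ n : ℕ, 0 < n →
  (∀ f : Tab d (Fin d) → ℝ, stat d n (K μ n f) = stat d n f) ∧
  (fun j c => if j = c then n else 0) ∈ states d n ∧ 0 < ∑ η ∈ states d n, wt η ∧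
  (∀ (f : Tab d (Fin d) → ℝ) (t : ℝ), 0 ≤ t → stat d n (P μ n t f) = stat d n f)

/-- **LUMP** (45 min). One step: if `∏ H j (ι j, c j) ≠ 0` then `lump (move σ (ι, c) H) = move σ c (lump H)`,
and `∑ ι, ∏ j, H j (ι j, c j) = ∏ j, lump H j (c j)`. -/
def S_LUMP : Prop := ∀ (d : ℕ) (μ : Equiv.Perm (Fin d) → ℝ) (n N : ℕ) (f : Tab d (Fin d) → ℝ)
  (H : Tab d (Fin d × Fin d)),
    (K μ n)^[N] (fun H => f (lump H)) H = (K μ n)^[N] f (lump H)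

/-- **FB** (the law of the refined table, 90 min), from REV. `W 0 M = 1` if `M j i = n [i = j]`, else `0`
(for `H` in the sum `mrg H = diag` forces `H = start x`). With
`G σ ι M j k = M j k + [ι j = k] - [ι (σ.symm j) = k]` (if the weight is not zero
`mrg H = G σ (fst ∘ c) (mrg (move σ c H))`) put
`W (N+1) M = ∑ σ, μ σ * ∑ ι : Fin d → Fin d, (∏ i, M (σ i) (ι i) / n) * W N (G σ ι M)`. Induction on `N`
for all `f`, `K^[N+1] f = K^[N] (K f)`, REV with `C = Fin d × Fin d`,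
`F H c = W N (G σ (fst ∘ c) (mrg H)) * f H`, and
`∑ over the second components, ∏ i, H (σ i) (ι i, c i) = ∏ i, mrg H (σ i) (ι i)`. -/
def S_FB : Prop := ∀ (d : ℕ) (μ : Equiv.Perm (Fin d) → ℝ), IsProb μ → ∀ n : ℕ, 0 < n →
  ∃ W : ℕ → (Fin d → Fin d → ℕ) → ℝ, (∀ N M, 0 ≤ W N M) ∧
    ∀ x : Tab d (Fin d), (∀ i, ∑ c, x i c = n) → ∀ (N : ℕ) (f : Tab d (Fin d × Fin d) → ℝ),
      (K μ n)^[N] f (start x) = ∑ H ∈ tabs d n (fun ic : Fin d × Fin d => x ic.1 ic.2),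
        W N (mrg H) * (∏ i, ∏ c, ((x i c).factorial : ℝ)) * wt H * f H

/-- **LS** (one step, 60 min). Let `Y` be the table after one step, `E Y = A η`. Then
`E |Y - z|² = |E Y - z|² + E |Y - E Y|² ≤ |A η - z|² + E |Y - η|² ≤ |A η - z|² + 2 d`. The marginals:
`∑ c, (∏ i, η i (c i) / n) * [c j = k] = η j k / n` (for weights which are products of probabilities). -/
def S_LS : Prop := ∀ (d : ℕ) (C : Type) [Fintype C] [DecidableEq C] (μ : Equiv.Perm (Fin d) → ℝ),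
  IsProb μ → ∀ n : ℕ, 0 < n → ∀ η : Tab d C, (∀ i, ∑ c, η i c = n) → ∀ z : Fin d → C → ℝ,
    K μ n (sq z) η ≤ (∑ j, ∑ c, ((∑ i, AM μ n j i * (η i c : ℝ)) - z j c) ^ 2) + 2 * d

/-- **AM** (45 min). `A` is doubly stochastic; (d) by convexity (Jensen) for `U`-rows or for `A`-rows; (e):
`|A v| ≥ (1 - 1/n) |v| - |U^T v| / n ≥ (1 - 2/n) |v|`, Bernoulli `(1 - 2/n)^N ≥ 1 - 2 N / n ≥ 1/2`. -/
def S_AM : Prop := ∀ (d : ℕ) (μ : Equiv.Perm (Fin d) → ℝ), IsProb μ → ∀ n : ℕ, 2 ≤ n →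
  (∀ N j i, 0 ≤ (AM μ n ^ N) j i) ∧ (∀ N j, ∑ i, (AM μ n ^ N) j i = 1) ∧
  (∀ N i, ∑ j, (AM μ n ^ N) j i = 1) ∧
  (∀ v : Fin d → ℝ, ∑ j, (∑ i, AM μ n j i * v i) ^ 2 ≤ ∑ i, v i ^ 2) ∧
  (∀ N : ℕ, 4 * N ≤ n → ∀ v : Fin d → ℝ,
    (1 / 4) * ∑ i, v i ^ 2 ≤ ∑ j, (∑ i, (AM μ n ^ N) j i * v i) ^ 2)

/-- **AM3** (60 min). Binomial theorem for `A = (1-1/n) 1 + (1/n) U^T` (commuting, entries nonnegative):
`(A^N) j i ≥ C(N,k) (1-1/n)^(N-k) n^(-k) (U^k) i j`, `C(N,k) ≥ (N/k)^k` for `1 ≤ k ≤ N` (for `k = 0` the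
factor is `1`), `(1-1/n)^N ≥ exp (-2 N / n) ≥ exp (-6 c0)` for `n ≥ 2`. Take for every pair `(i, j)` a `k`
from `Irr` and the minimum over the pairs. -/
def S_AM3 : Prop := ∀ (d : ℕ) (μ : Equiv.Perm (Fin d) → ℝ), IsProb μ → Irr μ → ∀ c0 : ℝ, 0 < c0 →
  ∃ κ : ℝ, 0 < κ ∧ ∃ n0 : ℕ, ∀ n : ℕ, n0 ≤ n → ∀ N : ℕ, c0 * n ≤ N → (N : ℝ) ≤ 3 * c0 * n →
    ∀ i j, κ ≤ (AM μ n ^ N) j i

/-- **LSN** (30 min), from LS, AM, KB: induction on `N` with `z` replaced by `A z`: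
`K^[N+1] (sq (A^(N+1) x)) x = K^[N] (K (sq ..)) x ≤ K^[N] (sq (A^N x)) x + 2 d` by (d) of AM applied to
`v i = η i c - (A^N x) i c` for every colour. -/
def S_LSN : Prop := ∀ (d : ℕ) (C : Type) [Fintype C] [DecidableEq C] (μ : Equiv.Perm (Fin d) → ℝ),
  IsProb μ → ∀ n : ℕ, 2 ≤ n → ∀ r : C → ℕ, ∀ x ∈ tabs d n r, ∀ N : ℕ,
    (K μ n)^[N] (sq fun j c => ∑ i, (AM μ n ^ N) j i * (x i c : ℝ)) x ≤ 2 * d * N

/-- **RT** (ratio of factorials, 45 min; pure analysis). For integers `a, b` within `L √n` of `m ≥ κ n`: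
`b! / a! = m^(b-a) e^θ` with `|θ| ≤ 4 L² / κ` for large `n` (each of the at most `2 L √n` factors is
`m (1 + O(L √n / m))`); the product over `c` of `m^(b c - a c)` is `1`. -/
def S_RT : Prop := ∀ (d : ℕ) (L κ : ℝ), 0 < L → 0 < κ → ∃ ρ : ℝ, 0 < ρ ∧ ∃ n0 : ℕ, ∀ n : ℕ, n0 ≤ n →
  ∀ (m : ℝ) (a b : Fin d → ℕ), κ * n ≤ m → ∑ c, a c = ∑ c, b c →
    (∀ c, |(a c : ℝ) - m| ≤ L * Real.sqrt n) → (∀ c, |(b c : ℝ) - m| ≤ L * Real.sqrt n) →
    ρ * ∏ c, ((b c).factorial : ℝ) ≤ ∏ c, ((a c).factorial : ℝ)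

/-- **OV** (overlap after `N` steps, 90 min), from KB, LUMP, FB, LSN, AM, AM3, RT (`d ≥ 1`). Fix an urn `j0`. Let
`δ i c = y i c - x i c` (integers), `|δ| ≤ 2 √(K0 n)`. `Good` : `|H j0 (i, c) - M_i / d| ≤ L √n` for all
`i, c` and `M_i / d ≥ κ' n`, where `M_i = mrg H j0 i`. (1) `K^[N] (ind Good) (start x) ≥ 1/2`: by LSN and
Markov `∑ (H - A^N start x)² ≤ 4 d N` with probability at least `1/2`; then
`|H j0 (i,c) - (A^N) j0 i * x i c| ≤ √(12 c0 d n)`, `|x i c - n/d| ≤ √(K0 n)` and AM3 give `Good` (with `L`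
large, `κ' = κ / (2 d)`, `n` large). (2) For `H ∈ Good` in the sum of FB for `x` let `H⁺ = H` except
`H⁺ j0 (i,c) = H j0 (i,c) + δ i c`: it is in the sum for `y`, `mrg H⁺ = mrg H`, `lump H⁺ = lump H`, and by
RT (for every `i` once with `H`, `H⁺` and once with `x`, `y`)
`∏ y! * wt H⁺ ≥ ρ^(2d) ∏ x! * wt H`. (3) So (`K^[N] (ind A) y = K^[N] (ind A ∘ lump) (start y)`, LUMP)
`K^[N] (ind Aᶜ) x + K^[N] (ind A) y ≥ ρ^(2d) K^[N] (ind Good) (start x) ≥ ρ^(2d) / 2` (`ρ ≤ 1`). -/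
def S_OV : Prop := ∀ (d : ℕ), 2 ≤ d → ∀ (μ : Equiv.Perm (Fin d) → ℝ), IsProb μ → Irr μ →
  ∀ c0 K0 : ℝ, 0 < c0 → 0 < K0 → ∃ ε : ℝ, 0 < ε ∧ ∃ n0 : ℕ, ∀ n : ℕ, n0 ≤ n →
    ∀ N : ℕ, c0 * n ≤ N → (N : ℝ) ≤ 3 * c0 * n → ∀ x ∈ states d n, ∀ y ∈ states d n,
      q d n x ≤ K0 * n → q d n y ≤ K0 * n → ∀ A : Set (Tab d (Fin d)),
        ε ≤ (K μ n)^[N] (ind Aᶜ) x + (K μ n)^[N] (ind A) y

/-- **PI** (45 min), from ST, LS, for the uniform law `μ0 = 1 / d!` (`U μ0 i j = 1 / d`,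
so `A v = (1-1/n) v` for `v` with zero column sums, as `v = η - n/d`):
`V = stat q = stat (K q) ≤ (1-1/n)² V + 2 d`, so `V ≤ 2 d n`. -/
def S_PI : Prop := ∀ d : ℕ, 2 ≤ d → ∀ n : ℕ, 2 ≤ n → stat d n (q d n) ≤ 2 * d * n

/-- **OUT** (40 min), from KB, AM, LSN. Let `q x > 720 d n`, `4 N ≤ n`. `|A^N x - n/d| ≥ |x - n/d| / 2 > √(180 d n)`
by AM (e) (for every colour; `A^N` fixes the constants), so `q η ≤ 20 d n` implies
`|η - A^N x| ≥ √(180 d n) - √(20 d n) = √(80 d n)`; Markov with LSN gives at most `2 d N / (80 d n)`. -/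
def S_OUT : Prop := ∀ d : ℕ, 2 ≤ d → ∀ μ : Equiv.Perm (Fin d) → ℝ, IsProb μ → ∀ n : ℕ, 2 ≤ n →
  ∀ N : ℕ, 4 * N ≤ n → ∀ x ∈ states d n, 720 * d * n < q d n x →
    (K μ n)^[N] (ind {η | q d n η ≤ 20 * d * n}) x ≤ 1 / 40

/-- **KEY** (60 min, mine), from PB, PT, ST, OV, PI, OUT, KB. -/
def S_KEY : Prop := ∀ d : ℕ, 2 ≤ d → ∀ μ : Equiv.Perm (Fin d) → ℝ, IsProb μ → Irr μ →
  ∃ ε : ℝ, 0 < ε ∧ ∃ n0 : ℕ, ∀ n : ℕ, n0 ≤ n →
    (∀ s t : ℝ, (n : ℝ) / 16 ≤ t → t ≤ s → s ≤ t + n / 16 → tv μ n s ≤ 1 / 10 → tv μ n t ≤ 1 - ε) ∧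
    (∀ s : ℝ, 0 ≤ s → s ≤ (n : ℝ) / 8 → 1 / 10 < tv μ n s) ∧
    (∀ s : ℝ, 0 ≤ s → tv μ n s ≤ 1)

/-- **FIN** (45 min, mine), from KEY. -/
def S_FIN : Prop := ∀ d : ℕ, 2 ≤ d → ∀ μ : Equiv.Perm (Fin d) → ℝ, IsProb μ → Irr μ →
  ¬ ∃ w : ℕ → ℝ, (∀ n, 0 ≤ w n) ∧ (w =o[atTop] fun n => (n : ℝ)) ∧ CutoffWindow μ w

end Pool.Agent.T2H97.BL
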